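import Mathlib
import Pool.Agent.H522.LW5

/-!
# All patterns of primes in the Cunningham sequences of both kinds, at times up to `log n`

A site is a pair `(j, true)` or `(j, false)`; the term of `n` at the site is `2 ^ j n - 1` or `2 ^ j n + 1`. These
are the terms of the two Cunningham sequences attached to `n`; a Cunningham chain of length `k` is given by `k`
consecutive sites of one kind whose terms are prime. For every `m` there are `N` and `A` such that for all large `T` and
for EVERY set `E` of at least `N` sites with times in `[1, T]`: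

* (1) at least `(|E| / N) ^ m` sets `F ⊆ E` with `m ≤ |F| ≤ N` are exact: for at least `2 ^ T` odd numbers
  `2 ^ T ≤ n ≤ 2 ^ (A T)`, `F` is the set of ALL sites with times up to `T ^ (21 / 20)` at which the term is prime;
* (2) a positive proportion of the `m`-element sets `D ⊆ E`, at least `(|E| / N) ^ m` of them, has all patterns: every
  `P ⊆ D` is the intersection with `D` of an exact set `F ⊆ E`, `m ≤ |F| ≤ N`.

The sites may depend on `n` and reach up to a constant times `log n`. One exact set in every set of `K(m)` sites is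
given by `Pool.Agent.H536.LS.main`; the numbers and the patterns follow by averaging over the sets of `N` sites and by
the lemma of Pajor, Sauer and Shelah.
-/

set_option autoImplicit false

open Finset

namespace Pool.Agent.Results.MP_c183ae_nt.AllPatternsUpToLog

/-- the term of a site: `2 ^ j n - 1` at the site `(j, true)`, `2 ^ j n + 1` at the site `(j, false)` -/
def term (u : ℕ × Bool) (n : ℕ) : ℕ := if u.2 then 2 ^ u.1 * n - 1 else 2 ^ u.1 * n + 1

/-- for at least `2 ^ T` odd `n`, `2 ^ T ≤ n ≤ 2 ^ (A T)`, the set of all sites with times up to `T ^ (21 / 20)` at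
which the term is prime is `F` -/
def Exact (A T : ℕ) (F : Finset (ℕ × Bool)) : Prop :=
  ∃ S : Finset ℕ, 2 ^ T ≤ #S ∧ ∀ n ∈ S, Odd n ∧ 2 ^ T ≤ n ∧ n ≤ 2 ^ (A * T) ∧
    ∀ u : ℕ × Bool, u.1 ^ 20 ≤ T ^ 21 → ((term u n).Prime ↔ u ∈ F)

open Classical in
theorem result (m : ℕ) (hm : 1 ≤ m) : ∃ N A T₀ : ℕ, 1 ≤ N ∧ ∀ T : ℕ, T₀ ≤ T → ∀ E : Finset (ℕ × Bool),
    (∀ u ∈ E, 1 ≤ u.1 ∧ u.1 ≤ T) → N ≤ #E →
      -- (1) the number of the exact sets
      ((#E : ℝ) / N) ^ m ≤ #(E.powerset.filter (fun F => m ≤ #F ∧ #F ≤ N ∧ Exact A T F)) ∧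
      -- (2) the number of the sets of `m` sites with all patterns
      ((#E : ℝ) / N) ^ m ≤ #(E.powerset.filter (fun D => #D = m ∧ ∀ P ⊆ D, ∃ F ⊆ E,
        F ∩ D = P ∧ m ≤ #F ∧ #F ≤ N ∧ Exact A T F)) :=
  Pool.Agent.H522.LW.sites m hm

end Pool.Agent.Results.MP_c183ae_nt.AllPatternsUpToLog
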