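import Pool.Agent.H540.TE.Lin

/-!
# Several almost prime Cunningham chains of both kinds at once, near given chains without small prime factors

The maps of the two kinds of Cunningham chains are `q ↦ 2 q + 1` and `q ↦ 2 q - 1`; both are written
`q ↦ 2 q + s`, `s = 1` or `s = -1`. Let `x_0, ..., x_K` be starting points (with signs `s_0, ..., s_K`, that is, the
kinds may be different) such that the first `J + 1` terms of the chains which start there have no
prime factor below `N ^ κ`. Then every set `A` of at least `N ^ (1 - c)` integers in `[1, N]` has at least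
`N ^ (2 - δ)` pairs of elements `b < a` such that for all `k` the first `J + 1` terms of the chain of the
kind `s_k` which starts at `x_k + (a - b)` have at most `R` prime factors, counted with multiplicity, all at least
`N ^ c`, and the number `x_0 + (a - b)` has at most two prime factors, both at least `N ^ (6 / 25)`. Here `x_0` may be as
large as `N ^ (5 / 3)` and the other starting points may be as large as any fixed power of `N`.

Starting points exist in every interval of length `N ^ ε` (`κ` depends on `ε`), and `x = -s` is always one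
(all terms are `-s`, they have no prime factors at all): with `x_0 = -1`, `s_0 = 1`, `x_1 = 1`, `s_1 = -1` the numbers
`m = a - b` are such that `m - 1`, `m + 1`, `2 m - 1`, `2 m + 1`, `4 m - 1`, `4 m + 1`, ... are almost primes.
The condition on the starting points is necessary: if a small prime `p` divides one of the terms, all
elements of `A` may be multiples of `p`.

Method: the small primes (up to a small power of `N`) are sieved by a combination of additive characters with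
majorising properties: with `t_p (m) = (K + 1) 1_{p | m} - x_p (m)`, where `x_p` is the indicator function of the
excluded classes and their negatives, `L = ∑_{d ≤ D} (1 - log d / log D) ∏_{p | d} t_p` and its analogues `L_p`
give `f = L ^ 2 - ∑_p x_p L_p ^ 2 ≤ 0` outside of the sifted set, and the Fourier coefficients of `f`
which are not small are nonnegative, so that their contribution is bounded from below by the main term, however sparse
`A` is. The larger prime divisors of the first number are treated by the linear sieve with the weights of Richert.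
-/

set_option autoImplicit false

namespace Pool.Agent.Results.MP_c183ae_nt.ChainsFromRoughChains

open Finset Filter Pool.Agent.H540.PS

/-- The `j`-th term (from `0`) of the chain which starts at `q`: `q, 2 q + s, 2 (2 q + s) + s, ...`; for `s = 1`
this is a chain of the first kind, for `s = -1` one of the second kind. -/
def term (s : ℤ) (j : ℕ) (q : ℤ) : ℤ := (fun t : ℤ => 2 * t + s)^[j] q

/-- All prime factors of `n` are at least `y`. -/
def Rough (y : ℝ) (n : ℤ) : Prop := ∀ p : ℕ, p.Prime → (p : ℤ) ∣ n → y ≤ (p : ℝ)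

/-- `n` is positive and has at most `R` prime factors, counted with multiplicity, all at least `y`. -/
def AlmostPrime (R : ℕ) (y : ℝ) (n : ℤ) : Prop :=
  0 < n ∧ n.natAbs.primeFactorsList.length ≤ R ∧ Rough y n

open Classical in
/-- The number of pairs `b < a` of elements of `A` such that for all `k` the terms number `0, ..., J` of the chain of
kind `s k` which starts at `x k + (a - b)` have at most `R` prime factors, all at least `y`, and
`x 0 + (a - b)` has at most two prime factors, all at least `w`. -/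
noncomputable def pairCount {K : ℕ} (J R : ℕ) (y w : ℝ) (s x : Fin (K + 1) → ℤ) (A : Finset ℤ) : ℕ :=
  ((A ×ˢ A).filter (fun z : ℤ × ℤ => z.2 < z.1 ∧ AlmostPrime 2 w (x 0 + (z.1 - z.2)) ∧
    ∀ k, ∀ j ≤ J, AlmostPrime R y (term (s k) j (x k + (z.1 - z.2))))).card

theorem term_eq (s : ℤ) (j : ℕ) (q : ℤ) : term s j q = 2 ^ j * (q + s) - s := by
  unfold term
  induction j with
  | zero => simp
  | succ n ih =>
    rw [Function.iterate_succ_apply', ih]
    ring

theorem ap_of (R : ℕ) (y : ℝ) (n : ℤ) (hn : 0 ≤ n) (h : AP R y n.natAbs) : AlmostPrime R y n := by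
  refine ⟨?_, h.2.1, fun p hp hd => h.2.2 p hp (Int.natCast_dvd.1 hd)⟩
  have := h.1
  omega

theorem RR_one (s : ℤ) (j p : ℕ) (hp : p.Prime) (hs : s = 1 ∨ s = -1) :
    (RR (fun m => (p : ℤ) ∣ term s j m) p).card ≤ 1 := by
  have h := RR_lin (2 ^ j) (2 ^ j * s - s) p hp (by
    rintro ⟨h1, h2⟩
    have h3 : (p : ℤ) ∣ s := by
      have h4 := dvd_sub (h1.mul_right s) h2
      rwa [show (2 : ℤ) ^ j * s - (2 ^ j * s - s) = s by ring] at h4
    have h5 := Int.natCast_dvd.1 h3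
    have h6 : s.natAbs = 1 := by
      rcases hs with h | h <;> rw [h] <;> rfl
    rw [h6] at h5
    exact hp.one_lt.ne' (Nat.dvd_one.1 h5))
  have e : (fun m => (p : ℤ) ∣ term s j m) = fun m => (p : ℤ) ∣ 2 ^ j * m + (2 ^ j * s - s) := by
    funext m
    rw [term_eq, show (2 : ℤ) ^ j * (m + s) - s = 2 ^ j * m + (2 ^ j * s - s) by ring]
  rw [e]
  exact h

theorem RR_all (s : ℤ) (J p : ℕ) (hp : p.Prime) (hs : s = 1 ∨ s = -1) :
    (RR (fun m => ∃ j ≤ J, (p : ℤ) ∣ term s j m) p).card ≤ J + 1 := by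
  induction J with
  | zero =>
    have e : (fun m => ∃ j ≤ 0, (p : ℤ) ∣ term s j m) = fun m => (p : ℤ) ∣ term s 0 m := by
      funext m
      simp
    rw [e]
    exact RR_one s 0 p hp hs
  | succ n ih =>
    have e : (fun m => ∃ j ≤ n + 1, (p : ℤ) ∣ term s j m) =
        fun m => (∃ j ≤ n, (p : ℤ) ∣ term s j m) ∨ (p : ℤ) ∣ term s (n + 1) m := by
      funext m
      apply propext
      constructor
      · rintro ⟨j, hj, h⟩
        rcases Nat.lt_or_ge n j with h2 | h2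
        · have : j = n + 1 := by omega
          rw [this] at h
          exact Or.inr h
        · exact Or.inl ⟨j, h2, h⟩
      · rintro (⟨j, hj, h⟩ | h)
        · exact ⟨j, by omega, h⟩
        · exact ⟨n + 1, le_rfl, h⟩
    rw [e]
    exact RR_or _ _ p _ _ ih (RR_one s (n + 1) p hp hs)

/-- base points -/
theorem points (J : ℕ) (ε : ℝ) (hε : 0 < ε) : ∃ (κ : ℝ) (N₀ : ℕ), 0 < κ ∧ ∀ N : ℕ, N₀ ≤ N → ∀ M s : ℤ,
    s = 1 ∨ s = -1 →
    ∃ x : ℤ, M < x ∧ (x : ℝ) ≤ M + (N : ℝ) ^ ε ∧ ∀ j ≤ J, Rough ((N : ℝ) ^ κ) (term s j x) := by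
  obtain ⟨κ, n0, hκ, H⟩ := base_eps (J + 1) ε hε
  refine ⟨κ, n0, hκ, fun n hn M s hs => ?_⟩
  obtain ⟨t, h1, h2, h3⟩ := H n hn (fun p m => ∃ j ≤ J, (p : ℤ) ∣ term s j m) M (by
    intro p hp
    refine ⟨?_, ?_, ?_⟩
    · intro m m' h
      have key : ∀ j, ((p : ℤ) ∣ term s j m ↔ (p : ℤ) ∣ term s j m') := by
        intro j
        rw [term_eq, term_eq]
        apply Int.dvd_iff_dvd_of_dvd_sub
        have := h.mul_left (2 ^ j)
        rw [show (2 : ℤ) ^ j * (m + s) - s - (2 ^ j * (m' + s) - s) = 2 ^ j * (m - m') by ring]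
        exact this
      constructor
      · rintro ⟨j, hj, h4⟩
        exact ⟨j, hj, (key j).1 h4⟩
      · rintro ⟨j, hj, h4⟩
        exact ⟨j, hj, (key j).2 h4⟩
    · refine ⟨-s, ?_⟩
      rintro ⟨j, hj, h4⟩
      rw [term_eq, show (2 : ℤ) ^ j * (-s + s) - s = -s by ring] at h4
      have h5 := Int.natCast_dvd.1 h4
      have h6 : (-s).natAbs = 1 := by
        rcases hs with h | h <;> rw [h] <;> rfl
      rw [h6] at h5
      exact hp.one_lt.ne' (Nat.dvd_one.1 h5)
    · exact RR_all s J p hp hs)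
  exact ⟨t, h1, h2, fun j hj p hp hd => h3 p hp ⟨j, hj, hd⟩⟩

/-- **Several almost prime Cunningham chains of both kinds near given chains without small prime factors, along
differences.** -/
theorem result :
    (∀ (J : ℕ) (ε : ℝ), 0 < ε → ∃ (κ : ℝ) (N₀ : ℕ), 0 < κ ∧ ∀ N : ℕ, N₀ ≤ N → ∀ M s : ℤ, s = 1 ∨ s = -1 →
      ∃ x : ℤ, M < x ∧ (x : ℝ) ≤ M + (N : ℝ) ^ ε ∧ ∀ j ≤ J, Rough ((N : ℝ) ^ κ) (term s j x)) ∧
    ∀ (J K E : ℕ) (κ δ : ℝ), 0 < κ → 0 < δ → ∃ (c : ℝ) (R N₀ : ℕ), 0 < c ∧ ∀ N : ℕ, N₀ ≤ N →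
      ∀ (s x : Fin (K + 1) → ℤ) (A : Finset ℤ), (x 0 : ℝ) ≤ (N : ℝ) ^ (5 / 3 : ℝ) →
        (∀ k, (s k = 1 ∨ s k = -1) ∧ -1 ≤ x k ∧ x k ≤ (N : ℤ) ^ E ∧
          ∀ j ≤ J, Rough ((N : ℝ) ^ κ) (term (s k) j (x k))) →
        (∀ a ∈ A, 1 ≤ a ∧ a ≤ (N : ℤ)) → (N : ℝ) ^ (1 - c) ≤ A.card →
        (N : ℝ) ^ (2 - δ) ≤ pairCount J R ((N : ℝ) ^ c) ((N : ℝ) ^ (6 / 25 : ℝ)) s x A := by
  classical
  refine ⟨points, ?_⟩
  intro J K E κ δ hκ hδ
  obtain ⟨c, R, N0, hc0, hcδ, H⟩ := linT ((K + 1) * (J + 1)) 2 (17 / 10) ((J + E + 2 : ℕ) : ℝ) κ δ (by norm_num)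
    (by positivity) hκ hδ (by norm_num)
  obtain ⟨N1, HN1⟩ := eventually_atTop.1 ((tpow (show (0 : ℝ) < 1 / 30 by norm_num)).eventually_ge_atTop 3)
  refine ⟨c, R, max (max N0 N1) 2, hc0, ?_⟩
  intro n hn s x A hx0 hsx hA hAc
  have hn2 : 2 ≤ n := (le_max_right _ _).trans hn
  have hn1 : 1 ≤ n := by omega
  have hn3 := HN1 n (((le_max_right _ _).trans (le_max_left _ _)).trans hn)
  have hN0 : N0 ≤ n := ((le_max_left _ _).trans (le_max_left _ _)).trans hn
  have hnr1 : (1 : ℝ) ≤ n := by exact_mod_cast hn1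
  have hnr0 : (0 : ℝ) < n := by linarith
  obtain ⟨al, hal⟩ : ∃ al : Fin ((K + 1) * (J + 1)) → ℤ, al = fun i =>
    2 ^ ((finProdFinEquiv.symm i).2 : ℕ) := ⟨_, rfl⟩
  obtain ⟨be, hbe⟩ : ∃ be : Fin ((K + 1) * (J + 1)) → ℤ, be = fun i =>
    term (s (finProdFinEquiv.symm i).1) ((finProdFinEquiv.symm i).2 : ℕ) (x (finProdFinEquiv.symm i).1) := ⟨_, rfl⟩
  have key := H n hN0 1 (x 0) al be A one_ne_zero (by
    obtain ⟨h1, h2, h3, h4⟩ := hsx 0
    have h2r : (-1 : ℝ) ≤ x 0 := by exact_mod_cast h2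
    have g1 : (1 : ℝ) ≤ (n : ℝ) ^ (5 / 3 : ℝ) := Real.one_le_rpow hnr1 (by norm_num)
    have g2 : (n : ℝ) ≤ (n : ℝ) ^ (5 / 3 : ℝ) := by
      conv_lhs => rw [← Real.rpow_one (n : ℝ)]
      exact Real.rpow_le_rpow_of_exponent_le hnr1 (by norm_num)
    have g3 : |(x 0 : ℝ)| ≤ (n : ℝ) ^ (5 / 3 : ℝ) := by
      rw [abs_le]
      exact ⟨by linarith, hx0⟩
    rw [Int.cast_one, abs_one, one_mul]
    calc |(x 0 : ℝ)| + (n : ℝ) ≤ 3 * (n : ℝ) ^ (5 / 3 : ℝ) := by linarith
      _ ≤ (n : ℝ) ^ (1 / 30 : ℝ) * (n : ℝ) ^ (5 / 3 : ℝ) :=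
          mul_le_mul_of_nonneg_right hn3 (by positivity)
      _ = (n : ℝ) ^ (17 / 10 : ℝ) := by
          rw [← Real.rpow_add hnr0]
          norm_num) (by
    intro p hp hd
    obtain ⟨h1, h2, h3, h4⟩ := hsx 0
    refine ⟨?_, ?_⟩
    · apply h4 0 (Nat.zero_le _) p hp
      exact hd
    intro h7
    have h8 := Int.natCast_dvd.1 h7
    exact hp.one_lt.ne' (Nat.dvd_one.1 h8)) (by
    intro i
    have hb : (2 : ℝ) ≤ n := by exact_mod_cast hn2
    have hbz : (2 : ℤ) ≤ n := by exact_mod_cast hn2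
    have hb1 : (1 : ℤ) ≤ n := by exact_mod_cast hn1
    obtain ⟨k, hk⟩ : ∃ k, k = (finProdFinEquiv.symm i).1 := ⟨_, rfl⟩
    obtain ⟨j, hj⟩ : ∃ j, j = (finProdFinEquiv.symm i).2 := ⟨_, rfl⟩
    obtain ⟨h1, h2, h3, h4⟩ := hsx k
    have hjJ : (j : ℕ) ≤ J := by have := j.isLt; omega
    have e2 : (2 : ℤ) ^ (j : ℕ) ≤ (n : ℤ) ^ J :=
      (pow_le_pow_left₀ (by norm_num) hbz _).trans (pow_le_pow_right₀ hb1 hjJ)
    have e2p : (1 : ℤ) ≤ 2 ^ (j : ℕ) := one_le_pow₀ (by norm_num)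
    have enE : (1 : ℤ) ≤ (n : ℤ) ^ E := one_le_pow₀ hb1
    have enJ : (1 : ℤ) ≤ (n : ℤ) ^ J := one_le_pow₀ hb1
    have e4 : (4 : ℤ) ≤ (n : ℤ) ^ 2 := by
      calc (4 : ℤ) = 2 ^ 2 := by norm_num
        _ ≤ (n : ℤ) ^ 2 := pow_le_pow_left₀ (by norm_num) hbz 2
    have eJE : (1 : ℤ) ≤ (n : ℤ) ^ J * (n : ℤ) ^ E := one_le_mul_of_one_le_of_one_le enJ enE
    have etot : (n : ℤ) ^ (J + E + 2) = (n : ℤ) ^ J * (n : ℤ) ^ E * (n : ℤ) ^ 2 := by
      rw [pow_add, pow_add]
    have htot : (n : ℤ) ^ J * (n : ℤ) ^ E * 4 ≤ (n : ℤ) ^ (J + E + 2) := by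
      rw [etot]
      exact mul_le_mul_of_nonneg_left e4 (by linarith)
    have hs1 : s k ≤ 1 ∧ -1 ≤ s k := by
      rcases h1 with h | h <;> rw [h] <;> norm_num
    rw [Real.rpow_natCast]
    constructor
    · rw [hal]
      simp only
      rw [← hj]
      have e5 : (2 : ℤ) ^ (j : ℕ) ≤ (n : ℤ) ^ (J + E + 2) := by
        refine le_trans ?_ htot
        have e6 : (n : ℤ) ^ J ≤ (n : ℤ) ^ J * (n : ℤ) ^ E := le_mul_of_one_le_right (by linarith) enE
        linarith
      have e7 : |(((2 : ℤ) ^ (j : ℕ) : ℤ) : ℝ)| = (((2 : ℤ) ^ (j : ℕ) : ℤ) : ℝ) := abs_of_nonneg (by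
        exact_mod_cast (by linarith : (0 : ℤ) ≤ 2 ^ (j : ℕ)))
      rw [e7]
      exact_mod_cast e5
    · rw [hbe]
      simp only
      rw [← hk, ← hj, term_eq]
      have e5 : |(2 : ℤ) ^ (j : ℕ) * (x k + s k) - s k| ≤ (n : ℤ) ^ (J + E + 2) := by
        refine le_trans ?_ htot
        have f1 : (2 : ℤ) ^ (j : ℕ) * (x k + s k) ≤ (n : ℤ) ^ J * ((n : ℤ) ^ E + 1) := by
          rcases le_or_gt 0 (x k + s k) with h | h
          · exact mul_le_mul e2 (by linarith [hs1.1]) h (by linarith)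
          · have : (2 : ℤ) ^ (j : ℕ) * (x k + s k) ≤ 0 := mul_nonpos_of_nonneg_of_nonpos (by linarith) h.le
            have : (0 : ℤ) ≤ (n : ℤ) ^ J * ((n : ℤ) ^ E + 1) := by positivity
            linarith
        have f2 : -((n : ℤ) ^ J * 2) ≤ (2 : ℤ) ^ (j : ℕ) * (x k + s k) := by
          have g1 : (2 : ℤ) ^ (j : ℕ) * (-2) ≤ (2 : ℤ) ^ (j : ℕ) * (x k + s k) :=
            mul_le_mul_of_nonneg_left (by linarith [hs1.2]) (by linarith)
          linarith
        have f3 : (n : ℤ) ^ J * ((n : ℤ) ^ E + 1) ≤ (n : ℤ) ^ J * (n : ℤ) ^ E * 2 := by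
          have : (n : ℤ) ^ J ≤ (n : ℤ) ^ J * (n : ℤ) ^ E := le_mul_of_one_le_right (by linarith) enE
          linarith
        have f4 : (n : ℤ) ^ J ≤ (n : ℤ) ^ J * (n : ℤ) ^ E := le_mul_of_one_le_right (by linarith) enE
        rw [abs_le]
        constructor
        · linarith [hs1.1, hs1.2]
        · linarith [hs1.1, hs1.2]
      have e6 : ((|(2 : ℤ) ^ (j : ℕ) * (x k + s k) - s k| : ℤ) : ℝ) ≤ (((n : ℤ) ^ (J + E + 2) : ℤ) : ℝ) := by
        exact_mod_cast e5
      rw [Int.cast_abs] at e6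
      refine e6.trans (le_of_eq ?_)
      push_cast
      rfl) (by
    intro i p hp hd
    obtain ⟨h1, h2, h3, h4⟩ := hsx (finProdFinEquiv.symm i).1
    rw [hbe] at hd
    simp only at hd
    exact h4 _ (by have := (finProdFinEquiv.symm i).2.isLt; omega) p hp hd) hA hAc
  refine key.trans ?_
  unfold pairCount
  apply Nat.cast_le.2
  apply card_le_card
  rintro ⟨a, b⟩ hz
  rw [mem_filter, mem_product] at hz ⊢
  obtain ⟨⟨ha, hb⟩, hlt, hall⟩ := hz
  simp only at ha hb hlt hall ⊢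
  obtain ⟨hmain, hall⟩ := hall
  have hq : ∀ k, 0 ≤ x k + (a - b) := by
    intro k
    obtain ⟨h1, h2, h3, h4⟩ := hsx k
    omega
  refine ⟨⟨ha, hb⟩, hlt, ?_, ?_⟩
  · rw [one_mul, add_comm] at hmain
    exact ap_of _ _ _ (hq 0) hmain
  have hgen : ∀ k, ∀ j ≤ J, AP R ((n : ℝ) ^ c) (term (s k) j (x k + (a - b))).natAbs := by
    intro k j hj
    have k0 := hall (finProdFinEquiv (k, ⟨j, by omega⟩))
    rw [hal, hbe] at k0
    simp only [Equiv.symm_apply_apply] at k0
    rw [term_eq, show (2 : ℤ) ^ j * (a - b) + (2 ^ j * (x k + s k) - s k) = 2 ^ j * (x k + (a - b) + s k) - s k by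
      ring, ← term_eq] at k0
    exact k0
  intro k j hj
  obtain ⟨h1, h2, h3, h4⟩ := hsx k
  have hpos := (ap_of _ _ _ (by rw [term_eq]; simpa using hq k) (hgen k 0 (Nat.zero_le _))).1
  rw [term_eq] at hpos
  simp only [pow_zero, one_mul, add_sub_cancel_right] at hpos
  refine ap_of _ _ _ ?_ (hgen k j hj)
  rw [term_eq]
  have e2p : (1 : ℤ) ≤ 2 ^ j := one_le_pow₀ (by norm_num)
  rcases h1 with h | h
  · rw [h]
    nlinarith
  · rw [h]
    nlinarith

end Pool.Agent.Results.MP_c183ae_nt.ChainsFromRoughChains
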