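import Pool.Agent.H530.HaU

/-!
# Cunningham chains of iterates: almost primes with an odd number of prime factors

Let `T q = 2 q + 1` (first kind) or `T q = 2 q - 1` (second kind). For every length `L` there are `R` and `N`
such that among the finite sums `m` of any `N` numbers there is one for which arbitrarily long and
arbitrarily large narrow progressions of integers `q` exist such that all the iterates `q`, `T^m q`,
`T^(2m) q`, ..., `T^((L-1)m) q` have an odd number of prime factors, all larger than the `R`-th root. For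
`N` equal numbers `M`: some multiple `d M`, `d ≤ N`, is such an `m`; for `M = 1`: some `m ≤ N`.
-/

set_option autoImplicit false

namespace Pool.Agent.Results.MP_c183ae_nt.SpacedChains

open Finset

/-- `m` has an odd number of prime factors (with multiplicity), and all of them are larger than the
`R`-th root of `m`; so `m` has at most `R` prime factors -/
def OddAlmost (R m : ℕ) : Prop :=
  Odd (ArithmeticFunction.cardFactors m) ∧ ∀ p : ℕ, p.Prime → p ∣ m → m < p ^ R

/-- for every `l` there are a `B` and arbitrarily large `n` such that for some `1 ≤ D ≤ (log n) ^ B` the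
iterates `T^[m f] q`, `f < L`, of all the numbers `q = n + j D`, `j < l`, are `OddAlmost R` -/
def Chain (R : ℕ) (T : ℕ → ℕ) (L m : ℕ) : Prop := ∀ l : ℕ, ∃ B : ℕ, ∀ N : ℕ, ∃ n D : ℕ, N ≤ n ∧ 1 ≤ D ∧
  (D : ℝ) ≤ Real.log n ^ B ∧ ∀ j < l, ∀ f < L, OddAlmost R (T^[m * f] (n + j * D))

lemma mono {R R' : ℕ} (h : R ≤ R') {m : ℕ} (hm : OddAlmost R m) : OddAlmost R' m :=
  ⟨hm.1, fun p hp hd => (hm.2 p hp hd).trans_le (Nat.pow_le_pow_right hp.pos h)⟩

lemma Chain.mono {R R' : ℕ} (h : R ≤ R') {T : ℕ → ℕ} {L m : ℕ} (hm : Chain R T L m) : Chain R' T L m := by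
  intro l
  obtain ⟨B, hB⟩ := hm l
  refine ⟨B, fun N => ?_⟩
  obtain ⟨n, D, h1, h2, h3, h4⟩ := hB N
  exact ⟨n, D, h1, h2, h3, fun j hj f hf => SpacedChains.mono h (h4 j hj f hf)⟩

/-- fewer numbers suffice -/
lemma ext {N N' : ℕ} (h : N ≤ N') {Q : ℕ → Prop}
    (H : ∀ x : Fin N → ℕ, ∃ I : Finset (Fin N), I.Nonempty ∧ Q (∑ i ∈ I, x i)) (x : Fin N' → ℕ) :
    ∃ I : Finset (Fin N'), I.Nonempty ∧ Q (∑ i ∈ I, x i) := by
  classical
  obtain ⟨I, hI, hQ⟩ := H (fun i => x (Fin.castLE h i))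
  refine ⟨I.image (Fin.castLE h), hI.image _, ?_⟩
  rw [sum_image (fun i _ j _ hij => Fin.castLE_injective h hij)]
  exact hQ

/-- **Chains of iterates of both kinds.** -/
theorem result (L : ℕ) : ∃ R N : ℕ, ∀ x : Fin N → ℕ,
    (∃ I : Finset (Fin N), I.Nonempty ∧ Chain R (fun q => 2 * q + 1) L (∑ i ∈ I, x i)) ∧
    (∃ I : Finset (Fin N), I.Nonempty ∧ Chain R (fun q => 2 * q - 1) L (∑ i ∈ I, x i)) := by
  obtain ⟨N1, R1, H1⟩ := Pool.Agent.H530.Ha.ipchain (L + 1) (by omega)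
  obtain ⟨N2, R2, H2⟩ := Pool.Agent.H530.Ha.ipchain2 (L + 1) (by omega)
  refine ⟨max R1 R2, max N1 N2, fun x => ⟨?_, ?_⟩⟩
  · refine ext (le_max_left N1 N2) (fun y => ?_) x
    obtain ⟨I, hI, h⟩ := H1 1 2 (by norm_num) Pool.Agent.H530.Ha.adm_first y
    refine ⟨I, hI, Chain.mono (le_max_left R1 R2) ?_⟩
    intro l
    obtain ⟨B, hB⟩ := h l
    refine ⟨B, fun N => ?_⟩
    obtain ⟨n, D, h1, h2, h3, h4⟩ := hB N
    exact ⟨n, D, h1, h2, h3, fun j hj f hf => h4 j hj f (by omega)⟩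
  · refine ext (le_max_right N1 N2) (fun y => ?_) x
    obtain ⟨I, hI, h⟩ := H2 y
    refine ⟨I, hI, Chain.mono (le_max_right R1 R2) ?_⟩
    intro l
    obtain ⟨B, hB⟩ := h l
    refine ⟨B, fun N => ?_⟩
    obtain ⟨n, D, h1, h2, h3, h4⟩ := hB N
    exact ⟨n, D, h1, h2, h3, fun j hj f hf => h4 j hj f (by omega)⟩

end Pool.Agent.Results.MP_c183ae_nt.SpacedChains
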