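import Mathlib
import Pool.Agent.H522.AffineOrbits

/-!
# Small sets of times with exact patterns of primes in the orbits of exponentially many affine maps

A Cunningham chain of the first (second) kind is a run of primes in an orbit of `x ↦ 2 x + 1` (`x ↦ 2 x - 1`). For an
affine map `f(x) = a x + b`, `a ≥ 2`, `b ≠ 0` prime to `a`, call a finite set `B` of times an exact pattern of `f` if for many
`n` the term `f^t(n)` is prime exactly for `t ∈ B` (for all `t ≤ M`, for every `M`). By the theorem of Maynard and Tao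
every set of `exp ((4 + o(1)) k)` times (multiples of `a - 1`, which is no condition for both kinds) contains an exact
pattern of `f` with `k` elements; for different maps one gets different sets, and the union of the patterns for `J`
maps has `J k` elements.

We show that there are universal sets of times which have the size `C k ^ 2 log (2 J)` only: let `T` be any set of times
with `log |T| ≥ (4 + δ) k + C`, let `𝓕` be a set of `J` affine maps such that the times in `T` are multiples of all the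
numbers `a - 1`. Then some `W ⊆ T` with `|W| ≤ C k ^ 2 log (2 J)` contains for EVERY `f ∈ 𝓕` an exact pattern of `f` with
at least `k` elements. Even a random subset `W` has this property: for every `t`, all but the proportion
`2 J exp (- t / (C k ^ 2))` of the `t`-element subsets of `T` have it. For instance there is a set of `C k ^ 3` times which
contains exact patterns with `k` elements for both kinds of Cunningham orbits, and for all maps `a x + b` with
coefficients up to `exp k` (`T` consisting of multiples of `⌊exp k⌋!`).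

Method: bounds for all the correlations of the primes in the measure of Maynard and Tao give exponentially small
exceptional sets of `t`-element sets for every single map (`Pool.Agent.H522`).
-/

set_option autoImplicit false

open Finset Filter

namespace Pool.Agent.Results.MP_c183ae_nt.UniversalTimes

/-- `P n` holds for many `n`: for every `η > 0` there are arbitrarily large `x` such that it holds for at least
`x ^ (1 - η)` of the natural numbers `n ≤ x` -/
def Many (P : ℕ → Prop) : Prop := ∀ η : ℝ, 0 < η → ∃ᶠ x : ℝ in atTop,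
  x ^ (1 - η) ≤ (Set.ncard {n : ℕ | (n : ℝ) ≤ x ∧ P n} : ℝ)

/-- `B` is an exact pattern of the map `f(x) = a x + b`: for every `M`, for many `n`, for all `t ≤ M` the term `f^t(n)` is
prime if and only if `t ∈ B` -/
def ExactPattern (f : ℤ × ℤ) (B : Finset ℕ) : Prop :=
  ∀ M : ℕ, Many fun n => ∀ t ≤ M, ((∃ p : ℕ, p.Prime ∧ (p : ℤ) = (fun x : ℤ => f.1 * x + f.2)^[t] n) ↔ t ∈ B)

/-- `W` contains an exact pattern with at least `k` elements of every map in `𝓕` -/
def Universal (k : ℕ) (𝓕 : Finset (ℤ × ℤ)) (W : Finset ℕ) : Prop :=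
  ∀ f ∈ 𝓕, ∃ B ⊆ W, k ≤ B.card ∧ ExactPattern f B

theorem exact_of {f : ℤ × ℤ} (ha : 2 ≤ f.1) {B : Finset ℕ}
    (h : Pool.Agent.H522.ExactL (Pool.Agent.H522.affA f.1) (Pool.Agent.H522.affB f.1 f.2) B) : ExactPattern f B := by
  intro M
  refine Pool.Agent.H522.OftenP.map (P := fun n => ∀ i ∈ Finset.range (M + 1),
    ((Pool.Agent.H522.affA f.1 i * n + Pool.Agent.H522.affB f.1 f.2 i).Prime ↔ i ∈ B)) 1 f.2.natAbs one_pos ?_
    (h (Finset.range (M + 1)))
  intro n hn t ht
  rw [← hn t (Finset.mem_range.2 (by omega))]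
  have h1 := Pool.Agent.H522.aff_val f.1 f.2 ha t n
  have h2 : (fun x : ℤ => f.1 * x + f.2)^[t] ((1 * n + f.2.natAbs : ℕ) : ℤ) =
      ((Pool.Agent.H522.affA f.1 t * n + Pool.Agent.H522.affB f.1 f.2 t : ℕ) : ℤ) := by
    rw [one_mul]; exact h1
  rw [h2]
  constructor
  · rintro ⟨p, hp, hpe⟩
    have : p = Pool.Agent.H522.affA f.1 t * n + Pool.Agent.H522.affB f.1 f.2 t := by exact_mod_cast hpe
    rwa [this] at hp
  · intro hp
    exact ⟨_, hp, rfl⟩

/-- **Small universal sets of times.** -/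
theorem result (δ : ℝ) (hδ : 0 < δ) : ∃ C : ℝ, 0 < C ∧ ∀ (k : ℕ) (𝓕 : Finset (ℤ × ℤ)) (T : Finset ℕ),
    1 ≤ k → 𝓕.Nonempty → (∀ f ∈ 𝓕, 2 ≤ f.1 ∧ f.2 ≠ 0 ∧ IsCoprime f.1 f.2) →
    (∀ f ∈ 𝓕, ∀ t ∈ T, (f.1 - 1) ∣ (t : ℤ)) → (4 + δ) * k + C ≤ Real.log T.card →
    -- (1) most sets of `t` times are universal for `𝓕`
    (∀ t : ℕ, t ≤ T.card → (Set.ncard {W : Finset ℕ | W ⊆ T ∧ W.card = t ∧ ¬ Universal k 𝓕 W} : ℝ) ≤
      2 * 𝓕.card * Real.exp (-(t / (C * (k : ℝ) ^ 2))) * (T.card.choose t : ℝ)) ∧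
    -- (2) small universal sets
    ∃ W ⊆ T, (W.card : ℝ) ≤ C * (k : ℝ) ^ 2 * Real.log (2 * 𝓕.card) ∧ Universal k 𝓕 W := by
  classical
  obtain ⟨C₁, hC₁, h1⟩ := Pool.Agent.H522.almost_all_deltaG δ hδ
  refine ⟨C₁ + 5, by linarith, ?_⟩
  intro k 𝓕 T hk hne h𝓕 hT hlog
  have hk' : (1 : ℝ) ≤ k := by exact_mod_cast hk
  have hJ : (1 : ℝ) ≤ 𝓕.card := by exact_mod_cast hne.card_pos
  have hδk : 0 ≤ δ * k := by positivity
  have hsm : ∀ f : ℤ × ℤ, Pool.Agent.H522.HasSM
      (Pool.Agent.H522.OkE (Pool.Agent.H522.affA f.1) (Pool.Agent.H522.affB f.1 f.2))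
      (Pool.Agent.H522.ExactL (Pool.Agent.H522.affA f.1) (Pool.Agent.H522.affB f.1 f.2)) :=
    fun f => Pool.Agent.H522.hasSM_E _ _
  have hok : ∀ f ∈ 𝓕, Pool.Agent.H522.OkE (Pool.Agent.H522.affA f.1) (Pool.Agent.H522.affB f.1 f.2) T :=
    fun f hf => Pool.Agent.H522.okE_aff f.1 f.2 (h𝓕 f hf).1 (h𝓕 f hf).2.1 (h𝓕 f hf).2.2 T (hT f hf)
  -- the union bound, with the constant `C₁`
  have hmain : ∀ t : ℕ, t ≤ T.card → (Set.ncard {W : Finset ℕ | W ⊆ T ∧ W.card = t ∧ ¬ Universal k 𝓕 W} : ℝ) ≤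
      2 * 𝓕.card * Real.exp (-(t / (C₁ * (k : ℝ) ^ 2))) * (T.card.choose t : ℝ) := by
    intro t ht
    have h2 : ∀ f ∈ 𝓕, (((T.powersetCard t).filter (Pool.Agent.H522.BadG (Pool.Agent.H522.ExactL
        (Pool.Agent.H522.affA f.1) (Pool.Agent.H522.affB f.1 f.2)) k)).card : ℝ) ≤
        2 * Real.exp (-(t / (C₁ * (k : ℝ) ^ 2))) * (T.card.choose t : ℝ) := by
      intro f hf
      have h3 := h1 ℕ _ _ (hsm f) k T hk (hok f hf) (by linarith) t ht
      refine le_trans (le_of_eq ?_) h3
      congr!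
    have h3 : Set.ncard {W : Finset ℕ | W ⊆ T ∧ W.card = t ∧ ¬ Universal k 𝓕 W} ≤
        (𝓕.biUnion (fun f => (T.powersetCard t).filter (Pool.Agent.H522.BadG (Pool.Agent.H522.ExactL
          (Pool.Agent.H522.affA f.1) (Pool.Agent.H522.affB f.1 f.2)) k))).card := by
      rw [← Set.ncard_coe_finset]
      refine Set.ncard_le_ncard ?_ (Finset.finite_toSet _)
      rintro W ⟨hW1, hW2, hW3⟩
      unfold Universal at hW3
      push Not at hW3
      obtain ⟨f, hf, hW4⟩ := hW3
      rw [Finset.mem_coe, Finset.mem_biUnion]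
      refine ⟨f, hf, ?_⟩
      rw [Finset.mem_filter, Finset.mem_powersetCard]
      refine ⟨⟨hW1, hW2⟩, ?_⟩
      rintro ⟨B, hB1, hB2, hB3⟩
      exact hW4 B hB1 hB2 (exact_of (h𝓕 f hf).1 hB3)
    calc (Set.ncard {W : Finset ℕ | W ⊆ T ∧ W.card = t ∧ ¬ Universal k 𝓕 W} : ℝ)
        ≤ ((𝓕.biUnion (fun f => (T.powersetCard t).filter (Pool.Agent.H522.BadG (Pool.Agent.H522.ExactL
          (Pool.Agent.H522.affA f.1) (Pool.Agent.H522.affB f.1 f.2)) k))).card : ℝ) := by exact_mod_cast h3
      _ ≤ ((∑ f ∈ 𝓕, ((T.powersetCard t).filter (Pool.Agent.H522.BadG (Pool.Agent.H522.ExactL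
          (Pool.Agent.H522.affA f.1) (Pool.Agent.H522.affB f.1 f.2)) k)).card : ℕ) : ℝ) := by
          exact_mod_cast Finset.card_biUnion_le
      _ = ∑ f ∈ 𝓕, (((T.powersetCard t).filter (Pool.Agent.H522.BadG (Pool.Agent.H522.ExactL
          (Pool.Agent.H522.affA f.1) (Pool.Agent.H522.affB f.1 f.2)) k)).card : ℝ) := by push_cast; rfl
      _ ≤ ∑ f ∈ 𝓕, 2 * Real.exp (-(t / (C₁ * (k : ℝ) ^ 2))) * (T.card.choose t : ℝ) := Finset.sum_le_sum h2
      _ = _ := by rw [Finset.sum_const, nsmul_eq_mul]; ring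
  refine ⟨fun t ht => (hmain t ht).trans ?_, ?_⟩
  · apply mul_le_mul_of_nonneg_right _ (Nat.cast_nonneg _)
    apply mul_le_mul_of_nonneg_left _ (by positivity)
    apply Real.exp_le_exp.2
    apply neg_le_neg
    apply div_le_div_of_nonneg_left (Nat.cast_nonneg _) (by positivity)
    apply mul_le_mul_of_nonneg_right _ (by positivity)
    linarith
  · have hlog2 : (1 : ℝ) / 2 ≤ Real.log (2 * 𝓕.card) := by
      have h4 : Real.log 2 ≤ Real.log (2 * 𝓕.card) := Real.log_le_log (by norm_num) (by linarith)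
      have := Real.log_two_gt_d9
      linarith
    obtain ⟨t, ht⟩ : ∃ t : ℕ, t = ⌊C₁ * (k : ℝ) ^ 2 * Real.log (2 * 𝓕.card)⌋₊ + 1 := ⟨_, rfl⟩
    have ht1 : C₁ * (k : ℝ) ^ 2 * Real.log (2 * 𝓕.card) < t := by
      rw [ht]; push_cast; exact Nat.lt_floor_add_one _
    have ht2 : (t : ℝ) ≤ (C₁ + 5) * (k : ℝ) ^ 2 * Real.log (2 * 𝓕.card) := by
      have h4 : (t : ℝ) ≤ C₁ * (k : ℝ) ^ 2 * Real.log (2 * 𝓕.card) + 1 := by
        rw [ht]; push_cast
        have := Nat.floor_le (a := C₁ * (k : ℝ) ^ 2 * Real.log (2 * 𝓕.card)) (by positivity)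
        linarith
      have h5 : 1 * (1 / 2) ≤ (k : ℝ) ^ 2 * Real.log (2 * 𝓕.card) :=
        mul_le_mul (one_le_pow₀ hk') hlog2 (by norm_num) (by positivity)
      nlinarith
    by_cases htT : t ≤ T.card
    · have h2 := hmain t htT
      have hch : (0 : ℝ) < (T.card.choose t : ℝ) := by exact_mod_cast Nat.choose_pos htT
      have h3 : 2 * 𝓕.card * Real.exp (-(t / (C₁ * (k : ℝ) ^ 2))) < 1 := by
        have h4 : Real.log (2 * 𝓕.card) < t / (C₁ * (k : ℝ) ^ 2) := by
          rw [lt_div_iff₀ (by positivity)]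
          linarith
        have h5 : 2 * (𝓕.card : ℝ) < Real.exp (t / (C₁ * (k : ℝ) ^ 2)) := by
          rw [← Real.log_lt_iff_lt_exp (by positivity)]
          exact h4
        rw [Real.exp_neg, ← div_eq_mul_inv, div_lt_one (Real.exp_pos _)]
        exact h5
      -- a good set
      have h4 : ∃ W ∈ T.powersetCard t, Universal k 𝓕 W := by
        by_contra hcon
        push Not at hcon
        have h5 : (T.powersetCard t : Set (Finset ℕ)) ⊆ {W : Finset ℕ | W ⊆ T ∧ W.card = t ∧ ¬ Universal k 𝓕 W} := by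
          intro W hW
          have hW' := Finset.mem_powersetCard.1 (Finset.mem_coe.1 hW)
          exact ⟨hW'.1, hW'.2, hcon W (Finset.mem_coe.1 hW)⟩
        have h6 := Set.ncard_le_ncard h5 ((T.powerset.finite_toSet).subset fun P hP =>
          Finset.mem_coe.2 (Finset.mem_powerset.2 hP.1))
        rw [Set.ncard_coe_finset, Finset.card_powersetCard] at h6
        have h7 : (T.card.choose t : ℝ) ≤
            (Set.ncard {W : Finset ℕ | W ⊆ T ∧ W.card = t ∧ ¬ Universal k 𝓕 W} : ℝ) := by exact_mod_cast h6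
        have h8 : 2 * 𝓕.card * Real.exp (-(t / (C₁ * (k : ℝ) ^ 2))) * (T.card.choose t : ℝ) <
            1 * (T.card.choose t : ℝ) := mul_lt_mul_of_pos_right h3 hch
        linarith
      obtain ⟨W, hW, hWu⟩ := h4
      rw [Finset.mem_powersetCard] at hW
      exact ⟨W, hW.1, by rw [hW.2]; exact ht2, hWu⟩
    · refine ⟨T, Finset.Subset.refl _, ?_, ?_⟩
      · push Not at htT
        have : (T.card : ℝ) ≤ t := by exact_mod_cast htT.le
        linarith
      · intro f hf
        have h2 := Pool.Agent.H522.super_isoG (hsm f) (k + 1) (by omega) T (hok f hf) (by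
          push_cast
          linarith)
        have hTpos : (0 : ℝ) < T.card := by
          by_contra hcon
          have h0 : (T.card : ℝ) = 0 := le_antisymm (not_lt.1 hcon) (Nat.cast_nonneg _)
          rw [h0, Real.log_zero] at hlog
          nlinarith
        have h3 : (0 : ℝ) < ((T.card : ℝ) / (300000 * ((k + 1 : ℕ) : ℝ) ^ 2)) ^ (k + 1) := by positivity
        have h4 := lt_of_lt_of_le h3 h2
        have h5 : 0 < (T.powerset.filter (fun B => k + 1 ≤ B.card ∧ Pool.Agent.H522.ExactL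
          (Pool.Agent.H522.affA f.1) (Pool.Agent.H522.affB f.1 f.2) B)).card := by exact_mod_cast h4
        obtain ⟨B, hB⟩ := Finset.card_pos.1 h5
        rw [Finset.mem_filter, Finset.mem_powerset] at hB
        exact ⟨B, hB.1, by omega, exact_of (h𝓕 f hf).1 hB.2.2⟩

end Pool.Agent.Results.MP_c183ae_nt.UniversalTimes
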